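import Pool.Agent.H3.Ni2

open scoped Manifold ContDiff
open Pool.Agent.H3.Ps Pool.Agent.H3.Ni

namespace Pool.Agent.Results.MP_64c48d_gt.Linear

/-- A closed connected `3`-manifold with a complete indefinite metric and a nontrivial `1`-form
`η` such that `η(γ')` is affine along every geodesic, with nonzero slope along some light-like
geodesic. -/
theorem result : ∃ (M : Type) (_ : TopologicalSpace M) (_ : ChartedSpace (Fin 3 → ℝ) M),
    T2Space M ∧ CompactSpace M ∧ ConnectedSpace M ∧ IsManifold 𝓘(ℝ, Fin 3 → ℝ) ∞ M ∧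
      ∃ (g : Form (Fin 3 → ℝ) M) (η : ∀ m : M, Tan (Fin 3 → ℝ) m →ₗ[ℝ] ℝ),
        IsMetric g ∧ IsIndefinite g ∧ IsGeodComplete g ∧ IsNontrivialOneForm η ∧
        (∀ γ, IsGeodesic g γ → ∃ C₁ C₂, IsAffineAlong η γ C₁ C₂) ∧
        ∃ γ C₁ C₂, IsLightLike g γ ∧ C₁ ≠ 0 ∧ IsAffineAlong η γ C₁ C₂ :=
  ⟨M, inferInstance, inferInstance, inferInstance, inferInstance, inferInstance, inferInstance,
    gM, ηM, isMetric, indef, complete, isOne,
    fun _ h => by obtain ⟨x, w, rfl⟩ := geo_eq h; exact ⟨_, _, affine x w⟩,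
    _, _, _, light, by simp, affine _ _⟩

end Pool.Agent.Results.MP_64c48d_gt.Linear
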